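import Pool.Agent.helper18.BT.EB

/-! # Project EB (MP_b57423_pr), module EA: upper bound of the eigenvalue by a ball -/

open MeasureTheory ProbabilityTheory Filter Topology
open scoped ENNReal NNReal ContDiff

namespace Pool.Agent.helper32.EB

theorem EA_disp_le (w : ℂ) (m n : ℤ) : ‖disp w‖ ≤ ‖w - ⟨m, n⟩‖ := by
  have h1 : |w.re - round w.re| ≤ |w.re - m| := round_le _ _
  have h2 : |w.im - round w.im| ≤ |w.im - n| := round_le _ _
  rw [Complex.norm_def, Complex.norm_def]
  apply Real.sqrt_le_sqrt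
  rw [Complex.normSq_apply, Complex.normSq_apply]
  simp only [disp, Complex.sub_re, Complex.sub_im]
  nlinarith [sq_abs (w.re - round w.re), sq_abs (w.im - round w.im), sq_abs (w.re - m),
    sq_abs (w.im - n), abs_nonneg (w.re - round w.re), abs_nonneg (w.im - round w.im),
    mul_self_le_mul_self (abs_nonneg _) h1, mul_self_le_mul_self (abs_nonneg _) h2]

theorem EA_disp_eq (w : ℂ) : disp w = w - ⟨round w.re, round w.im⟩ := by
  apply Complex.ext <;> simp [disp]

theorem EA_lip (w w' : ℂ) : ‖disp w‖ ≤ ‖disp w'‖ + ‖w - w'‖ := by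
  have h1 := EA_disp_le w (round w'.re) (round w'.im)
  have h2 : w - ⟨round w'.re, round w'.im⟩ = disp w' + (w - w') := by
    rw [EA_disp_eq w']; ring
  rw [h2] at h1
  exact h1.trans (norm_add_le _ _)

theorem EA_round {t : ℝ} (ht : |t| ≤ 1 / 2) : |t - round t| = |t| := by
  apply le_antisymm
  · have := round_le t 0
    simpa using this
  · by_cases h : round t = 0
    · rw [h]; simp
    · have h1 : (1 : ℝ) ≤ |(round t : ℝ)| := by
        rw [← Int.cast_abs]
        exact_mod_cast Int.one_le_abs h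
      have h2 : |(round t : ℝ)| ≤ |t| + |t - round t| := by
        have := abs_sub_abs_le_abs_sub (round t : ℝ) t
        rw [abs_sub_comm] at this
        linarith
      linarith

theorem EA_disp_norm {w : ℂ} (h1 : |w.re| ≤ 1 / 2) (h2 : |w.im| ≤ 1 / 2) : ‖disp w‖ = ‖w‖ := by
  rw [Complex.norm_def, Complex.norm_def]
  congr 1
  rw [Complex.normSq_apply, Complex.normSq_apply]
  have e1 := EA_round h1
  have e2 := EA_round h2
  simp only [disp]
  rw [← abs_mul_abs_self (w.re - round w.re), ← abs_mul_abs_self (w.im - round w.im), e1, e2,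
    abs_mul_abs_self, abs_mul_abs_self]

theorem EA_per1 (w : ℂ) : disp (w + 1) = disp w := by
  apply Complex.ext <;> simp [disp]

theorem EA_perI (w : ℂ) : disp (w + Complex.I) = disp w := by
  apply Complex.ext <;> simp [disp]

/-- near a point with small displacement the lattice part is constant -/
theorem EA_local {w0 : ℂ} (h : ‖disp w0‖ < 1 / 2) :
    ∀ᶠ w in 𝓝 w0, disp w = w - ⟨round w0.re, round w0.im⟩ := by
  have key : ∀ t0 : ℝ, |t0 - round t0| < 1 / 2 → ∀ᶠ t in 𝓝 t0, round t = round t0 := by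
    intro t0 ht0
    have h1 : ∀ᶠ t : ℝ in 𝓝 t0, |t - (round t0 : ℝ)| < 1 / 2 := by
      have hc : Continuous fun t : ℝ => |t - (round t0 : ℝ)| := by fun_prop
      exact hc.continuousAt.eventually_lt continuousAt_const ht0
    filter_upwards [h1] with t ht
    rw [round_eq, Int.floor_eq_iff]
    rw [abs_lt] at ht
    constructor <;> linarith [ht.1, ht.2]
  have hre : |w0.re - round w0.re| < 1 / 2 := by
    have : |(disp w0).re| ≤ ‖disp w0‖ := Complex.abs_re_le_norm _
    exact lt_of_le_of_lt this h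
  have him : |w0.im - round w0.im| < 1 / 2 := by
    have : |(disp w0).im| ≤ ‖disp w0‖ := Complex.abs_im_le_norm _
    exact lt_of_le_of_lt this h
  have e1 : ∀ᶠ w : ℂ in 𝓝 w0, round w.re = round w0.re :=
    Complex.continuous_re.continuousAt.eventually (key _ hre)
  have e2 : ∀ᶠ w : ℂ in 𝓝 w0, round w.im = round w0.im :=
    Complex.continuous_im.continuousAt.eventually (key _ him)
  filter_upwards [e1, e2] with w h1 h2
  rw [EA_disp_eq, h1, h2]

/-- the bump -/
noncomputable def EA_bump : ContDiffBump (0 : ℂ) := ⟨1 / 4, 1 / 2, by norm_num, by norm_num⟩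

/-- the test function -/
noncomputable def EA_f (x : ℂ) (ε : ℝ) (z : ℂ) : ℝ := EA_bump ((1 / ε) • disp (z - x))

theorem EA_zero {x : ℂ} {ε : ℝ} (hε : 0 < ε) {z : ℂ} (h : ε / 2 ≤ ‖disp (z - x)‖) :
    EA_f x ε z = 0 := by
  unfold EA_f
  apply EA_bump.zero_of_le_dist
  rw [dist_zero_right, norm_smul, Real.norm_of_nonneg (by positivity)]
  show (1 / 2 : ℝ) ≤ _
  rw [one_div_mul_eq_div, le_div_iff₀ hε]
  linarith

theorem EA_one {x : ℂ} {ε : ℝ} (hε : 0 < ε) {z : ℂ} (h : ‖disp (z - x)‖ ≤ ε / 4) :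
    EA_f x ε z = 1 := by
  unfold EA_f
  apply EA_bump.one_of_mem_closedBall
  rw [mem_closedBall_zero_iff, norm_smul, Real.norm_of_nonneg (by positivity)]
  show _ ≤ (1 / 4 : ℝ)
  rw [one_div_mul_eq_div, div_le_iff₀ hε]
  linarith

theorem EA_far {x : ℂ} {ε : ℝ} (hε : 0 < ε) {z : ℂ} (h : ε / 2 < ‖disp (z - x)‖) :
    EA_f x ε =ᶠ[𝓝 z] 0 := by
  rw [Filter.EventuallyEq, Metric.eventually_nhds_iff]
  refine ⟨‖disp (z - x)‖ - ε / 2, by linarith, fun y hy => ?_⟩
  apply EA_zero hε
  have h1 := EA_lip (z - x) (y - x)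
  rw [dist_eq_norm, norm_sub_rev] at hy
  have e1 : z - x - (y - x) = z - y := by ring
  rw [e1] at h1
  linarith

theorem EA_near {x : ℂ} {ε : ℝ} {z : ℂ} (h : ‖disp (z - x)‖ < 1 / 2) :
    ∃ m : ℂ, EA_f x ε =ᶠ[𝓝 z] fun y => EA_bump ((1 / ε) • (y - m)) := by
  refine ⟨x + ⟨round (z - x).re, round (z - x).im⟩, ?_⟩
  have h1 : ∀ᶠ y in 𝓝 z, disp (y - x) = (y - x) - ⟨round (z - x).re, round (z - x).im⟩ := by
    have hc : ContinuousAt (fun y : ℂ => y - x) z := by fun_prop
    exact hc.eventually (EA_local h)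
  filter_upwards [h1] with y hy
  unfold EA_f
  rw [hy, sub_sub]

theorem EA_smooth {x : ℂ} {ε : ℝ} (hε : 0 < ε) (hε' : ε ≤ 1 / 4) :
    ContDiff ℝ (⊤ : ℕ∞) (EA_f x ε) := by
  rw [contDiff_iff_contDiffAt]
  intro z
  by_cases h : ‖disp (z - x)‖ < 1 / 2
  · obtain ⟨m, hm⟩ := EA_near (ε := ε) h
    refine ContDiffAt.congr_of_eventuallyEq ?_ hm
    have h2 : ContDiff ℝ (⊤ : ℕ∞) (fun y : ℂ => (1 / ε) • (y - m)) := by fun_prop
    have h1 : ContDiff ℝ (⊤ : ℕ∞) (fun y : ℂ => EA_bump ((1 / ε) • (y - m))) :=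
      EA_bump.contDiff.comp h2
    exact h1.contDiffAt
  · push Not at h
    exact contDiffAt_const.congr_of_eventuallyEq (EA_far hε (by linarith))

theorem EA_deriv {C0 : ℝ} (hC0 : ∀ y, ‖fderiv ℝ EA_bump y‖ ≤ C0) {x : ℂ} {ε : ℝ} (hε : 0 < ε)
    (hε' : ε ≤ 1 / 4) (z : ℂ) : ‖fderiv ℝ (EA_f x ε) z‖ ≤ C0 / ε := by
  have hC : 0 ≤ C0 := (norm_nonneg _).trans (hC0 0)
  by_cases h : ‖disp (z - x)‖ < 1 / 2
  · obtain ⟨m, hm⟩ := EA_near (ε := ε) h
    rw [hm.fderiv_eq]
    have h1 : HasFDerivAt (fun y : ℂ => (1 / ε) • (y - m))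
        ((1 / ε) • ContinuousLinearMap.id ℝ ℂ) z :=
      ((hasFDerivAt_id z).sub_const m).const_smul (1 / ε)
    have h2 : HasFDerivAt EA_bump (fderiv ℝ EA_bump ((1 / ε) • (z - m))) ((1 / ε) • (z - m)) :=
      (EA_bump.contDiff (n := 1)).contDiffAt.differentiableAt one_ne_zero |>.hasFDerivAt
    have h3 := h2.comp z h1
    have h4 : fderiv ℝ (fun y : ℂ => EA_bump ((1 / ε) • (y - m))) z = _ := h3.fderiv
    rw [h4]
    refine (ContinuousLinearMap.opNorm_comp_le _ _).trans ?_
    have h5 : ‖(1 / ε) • ContinuousLinearMap.id ℝ ℂ‖ ≤ 1 / ε := by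
      rw [norm_smul, Real.norm_of_nonneg (by positivity)]
      have := ContinuousLinearMap.norm_id_le (𝕜 := ℝ) (E := ℂ)
      have h6 : 0 < 1 / ε := by positivity
      nlinarith
    calc _ ≤ C0 * (1 / ε) := mul_le_mul (hC0 _) h5 (norm_nonneg _) hC
      _ = C0 / ε := by ring
  · push Not at h
    have h1 : EA_f x ε =ᶠ[𝓝 z] fun _ => (0 : ℝ) := EA_far hε (by linarith)
    rw [h1.fderiv_eq, fderiv_const_apply, norm_zero]
    positivity

/-- integrals of periodic functions -/
theorem EA_shift (g : ℂ → ℝ) (hg : Continuous g) (h1 : ∀ z, g (z + 1) = g z)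
    (h2 : ∀ z, g (z + Complex.I) = g z) (a b : ℝ) :
    ∫ z in unitSq, g z =
      ∫ z in {z : ℂ | (a ≤ z.re ∧ z.re ≤ a + 1) ∧ (b ≤ z.im ∧ z.im ≤ b + 1)}, g z := by
  have e0 : unitSq = {z : ℂ | (0 ≤ z.re ∧ z.re ≤ 0 + 1) ∧ (0 ≤ z.im ∧ z.im ≤ 0 + 1)} := by
    unfold unitSq; simp
  rw [e0, EB_conv g hg 0 0 1 one_pos, EB_conv g hg a b 1 one_pos]
  have e1 : ∀ u : ℝ, ∫ v in (0 : ℝ)..(0 + 1), g ⟨u, v⟩ = ∫ v in b..(b + 1), g ⟨u, v⟩ := by
    intro u
    have hp : Function.Periodic (fun v : ℝ => g ⟨u, v⟩) 1 := by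
      intro v
      show g ⟨u, v + 1⟩ = g ⟨u, v⟩
      rw [← h2 ⟨u, v⟩]
      congr 1
      apply Complex.ext <;> simp
    exact hp.intervalIntegral_add_eq 0 b
  simp only [e1]
  have hp : Function.Periodic (fun u : ℝ => ∫ v in b..(b + 1), g ⟨u, v⟩) 1 := by
    intro u
    show ∫ v in b..(b + 1), g ⟨u + 1, v⟩ = _
    refine intervalIntegral.integral_congr fun v _ => ?_
    show g ⟨u + 1, v⟩ = g ⟨u, v⟩
    rw [← h1 ⟨u, v⟩]
    congr 1
    apply Complex.ext <;> simp
  exact hp.intervalIntegral_add_eq 0 a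

theorem lam1_le : ∃ C : ℝ, 0 < C ∧ ∀ (K : Set ℂ) (x : ℂ) (ε : ℝ), 0 < ε → ε ≤ 1 / 4 →
    (∀ z ∈ K, ε ≤ ‖disp (z - x)‖) → lam1 K ≤ ENNReal.ofReal (C / ε ^ 2) := by
  obtain ⟨C0, hC0⟩ : ∃ C0, ∀ y, ‖fderiv ℝ EA_bump y‖ ≤ C0 := by
    have h1 : Continuous (fderiv ℝ EA_bump) :=
      (EA_bump.contDiff (n := 1)).continuous_fderiv one_ne_zero
    exact (EA_bump.hasCompactSupport.fderiv ℝ).exists_bound_of_continuous h1
  have hC : 0 ≤ C0 := (norm_nonneg _).trans (hC0 0)
  refine ⟨8 * C0 ^ 2 + 1, by positivity, ?_⟩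
  intro K x ε hε hε' hK
  set f := EA_f x ε with hf
  have hsm : ContDiff ℝ (⊤ : ℕ∞) f := EA_smooth hε hε'
  have hsm1 : ContDiff ℝ 1 f := hsm.of_le (by exact_mod_cast le_top)
  have hfc : Continuous f := hsm.continuous
  have hdc : Continuous (fderiv ℝ f) := hsm1.continuous_fderiv one_ne_zero
  have hp1 : ∀ z, f (z + 1) = f z := by
    intro z
    show EA_bump _ = EA_bump _
    have : z + 1 - x = (z - x) + 1 := by ring
    rw [this, EA_per1]
  have hpI : ∀ z, f (z + Complex.I) = f z := by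
    intro z
    show EA_bump _ = EA_bump _
    have : z + Complex.I - x = (z - x) + Complex.I := by ring
    rw [this, EA_perI]
  have hAdm : Adm K f := by
    refine ⟨hsm, hp1, hpI, fun z hz => EA_far hε (by linarith [hK z hz]), ⟨x, ?_⟩⟩
    rw [hf, EA_one hε]
    · exact one_ne_zero
    · have : disp (x - x) = 0 := by
        apply Complex.ext <;> simp [disp]
      rw [this, norm_zero]; positivity
  have hle : lam1 K ≤ ENNReal.ofReal (energy f / mass f) := iInf₂_le f hAdm
  refine hle.trans (ENNReal.ofReal_le_ofReal ?_)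
  -- the shifted square
  set Sq : Set ℂ := {z : ℂ | (x.re - 1 / 2 ≤ z.re ∧ z.re ≤ x.re - 1 / 2 + 1) ∧
    (x.im - 1 / 2 ≤ z.im ∧ z.im ≤ x.im - 1 / 2 + 1)} with hSq
  have hSqd : ∀ z ∈ Sq, ‖disp (z - x)‖ = ‖z - x‖ := by
    intro z hz
    apply EA_disp_norm
    · rw [Complex.sub_re, abs_le]; constructor <;> linarith [hz.1.1, hz.1.2]
    · rw [Complex.sub_im, abs_le]; constructor <;> linarith [hz.2.1, hz.2.2]
  have hballSq : Metric.closedBall x (ε / 4) ⊆ Sq := by
    intro z hz
    rw [mem_closedBall_iff_norm] at hz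
    have h1 := (Complex.abs_re_le_norm (z - x)).trans hz
    have h2 := (Complex.abs_im_le_norm (z - x)).trans hz
    rw [Complex.sub_re, abs_le] at h1
    rw [Complex.sub_im, abs_le] at h2
    exact ⟨⟨by linarith [h1.1], by linarith [h1.2]⟩, ⟨by linarith [h2.1], by linarith [h2.2]⟩⟩
  have hSqc : IsClosed Sq := by
    have c1 : IsClosed {z : ℂ | x.re - 1 / 2 ≤ z.re} := isClosed_le continuous_const Complex.continuous_re
    have c2 : IsClosed {z : ℂ | z.re ≤ x.re - 1 / 2 + 1} := isClosed_le Complex.continuous_re continuous_const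
    have c3 : IsClosed {z : ℂ | x.im - 1 / 2 ≤ z.im} := isClosed_le continuous_const Complex.continuous_im
    have c4 : IsClosed {z : ℂ | z.im ≤ x.im - 1 / 2 + 1} := isClosed_le Complex.continuous_im continuous_const
    exact (c1.inter c2).inter (c3.inter c4)
  have hSqb : Sq ⊆ Metric.closedBall x 1 := by
    intro z hz
    rw [mem_closedBall_iff_norm]
    have h1 : |(z - x).re| ≤ 1 / 2 := by
      rw [Complex.sub_re, abs_le]; constructor <;> linarith [hz.1.1, hz.1.2]
    have h2 : |(z - x).im| ≤ 1 / 2 := by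
      rw [Complex.sub_im, abs_le]; constructor <;> linarith [hz.2.1, hz.2.2]
    linarith [Complex.norm_le_abs_re_add_abs_im (z - x)]
  have hSqk : IsCompact Sq := (isCompact_closedBall x 1).of_isClosed_subset hSqc hSqb
  have hvol : ∀ r : ℝ, 0 ≤ r → (volume (Metric.closedBall x r)).toReal = r ^ 2 * Real.pi := by
    intro r hr
    rw [Complex.volume_closedBall, ENNReal.toReal_mul, ENNReal.toReal_pow, ENNReal.toReal_ofReal hr]
    rfl
  -- mass
  have hmass : ε ^ 2 * Real.pi / 16 ≤ mass f := by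
    unfold mass
    rw [EA_shift (fun z => (f z) ^ 2) (hfc.pow 2) (fun z => by rw [hp1]) (fun z => by rw [hpI])
      (x.re - 1 / 2) (x.im - 1 / 2)]
    have h1 : ∫ z in Metric.closedBall x (ε / 4), (1 : ℝ) ≤ ∫ z in Sq, (f z) ^ 2 := by
      have h2 : ∫ z in Metric.closedBall x (ε / 4), (1 : ℝ) =
          ∫ z in Metric.closedBall x (ε / 4), (f z) ^ 2 := by
        refine setIntegral_congr_fun Metric.isClosed_closedBall.measurableSet fun z hz => ?_
        show (1 : ℝ) = (f z) ^ 2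
        rw [hf, EA_one hε]
        · norm_num
        · rw [hSqd z (hballSq hz)]
          exact mem_closedBall_iff_norm.1 hz
      rw [h2]
      refine setIntegral_mono_set ((hfc.pow 2).continuousOn.integrableOn_compact hSqk) ?_
        (LE.le.eventuallyLE hballSq)
      exact Filter.Eventually.of_forall fun z => sq_nonneg _
    refine le_trans (le_of_eq ?_) h1
    rw [setIntegral_const, smul_eq_mul, mul_one, measureReal_def, hvol _ (by positivity)]
    ring
  -- energy
  have hener : energy f ≤ C0 ^ 2 * Real.pi / 2 := by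
    unfold energy
    have hgc : Continuous (fun z => (fderiv ℝ f z 1) ^ 2 + (fderiv ℝ f z Complex.I) ^ 2) :=
      ((hdc.clm_apply continuous_const).pow 2).add ((hdc.clm_apply continuous_const).pow 2)
    have hdp : ∀ w : ℂ, (∀ z, f (z + w) = f z) → ∀ z, fderiv ℝ f (z + w) = fderiv ℝ f z := by
      intro w hw z
      rw [← fderiv_comp_add_right w]
      congr 1
      funext y
      exact hw y
    rw [EA_shift _ hgc (fun z => by rw [hdp 1 hp1]) (fun z => by rw [hdp Complex.I hpI])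
      (x.re - 1 / 2) (x.im - 1 / 2)]
    have h1 : ∀ z ∈ Sq, (fderiv ℝ f z 1) ^ 2 + (fderiv ℝ f z Complex.I) ^ 2 ≤
        (Metric.closedBall x (ε / 2)).indicator (fun _ => 2 * (C0 / ε) ^ 2) z := by
      intro z hz
      by_cases hzb : z ∈ Metric.closedBall x (ε / 2)
      · rw [Set.indicator_of_mem hzb]
        have h2 := EA_deriv hC0 (x := x) hε hε' z
        have h3 : ∀ w : ℂ, ‖w‖ ≤ 1 → (fderiv ℝ f z w) ^ 2 ≤ (C0 / ε) ^ 2 := by
          intro w hw
          have h4 : |fderiv ℝ f z w| ≤ C0 / ε := by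
            have h5 := (fderiv ℝ f z).le_opNorm w
            rw [Real.norm_eq_abs] at h5
            refine h5.trans ?_
            calc ‖fderiv ℝ f z‖ * ‖w‖ ≤ C0 / ε * 1 :=
                  mul_le_mul h2 hw (norm_nonneg _) (by positivity)
              _ = C0 / ε := mul_one _
          rw [← sq_abs]
          exact pow_le_pow_left₀ (abs_nonneg _) h4 2
        have h6 := h3 1 (by simp)
        have h7 := h3 Complex.I (by simp)
        linarith
      · rw [Set.indicator_of_notMem hzb]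
        have h2 : f =ᶠ[𝓝 z] fun _ => (0 : ℝ) := by
          apply EA_far hε
          rw [hSqd z hz]
          rw [mem_closedBall_iff_norm, not_le] at hzb
          exact hzb
        rw [h2.fderiv_eq]
        simp
    have hint : Integrable ((Metric.closedBall x (ε / 2)).indicator
        (fun _ => 2 * (C0 / ε) ^ 2)) (volume : Measure ℂ) :=
      (integrable_indicator_iff Metric.isClosed_closedBall.measurableSet).2
        (integrableOn_const (measure_closedBall_lt_top (μ := volume)).ne)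
    have h2 := setIntegral_mono_on (hgc.continuousOn.integrableOn_compact hSqk)
      hint.integrableOn hSqc.measurableSet h1
    refine h2.trans ?_
    have h3 : ∫ z in Sq, (Metric.closedBall x (ε / 2)).indicator (fun _ => 2 * (C0 / ε) ^ 2) z ≤
        ∫ z, (Metric.closedBall x (ε / 2)).indicator (fun _ => 2 * (C0 / ε) ^ 2) z := by
      apply setIntegral_le_integral
      · exact hint
      · exact Filter.Eventually.of_forall fun z => Set.indicator_nonneg (fun _ _ => by positivity) z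
    refine h3.trans (le_of_eq ?_)
    rw [integral_indicator Metric.isClosed_closedBall.measurableSet, setIntegral_const, smul_eq_mul,
      measureReal_def, hvol _ (by positivity)]
    field_simp
  have hm0 : 0 < ε ^ 2 * Real.pi / 16 := by positivity
  have he0 : (0 : ℝ) ≤ C0 ^ 2 * Real.pi / 2 := by positivity
  calc energy f / mass f ≤ (C0 ^ 2 * Real.pi / 2) / (ε ^ 2 * Real.pi / 16) :=
        div_le_div₀ he0 hener hm0 hmass
    _ = 8 * C0 ^ 2 / ε ^ 2 := by field_simp; ring
    _ ≤ (8 * C0 ^ 2 + 1) / ε ^ 2 := by gcongr; linarith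

end Pool.Agent.helper32.EB
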