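import Pool.Agent.helper32.EB.Defs2

/-! # Project EB (MP_b57423_pr), modules EB1, EB2: Poincare inequality on a square -/

open MeasureTheory ProbabilityTheory Filter Topology
open scoped ENNReal NNReal

namespace Pool.Agent.helper32.EB

/-- Cauchy-Schwarz on an interval -/
theorem EB_cs {g : ℝ → ℝ} (hg : Continuous g) {x y : ℝ} (hxy : x ≤ y) :
    (∫ t in x..y, g t) ^ 2 ≤ (y - x) * ∫ t in x..y, (g t) ^ 2 := by
  set I := ∫ t in x..y, g t with hI
  have h0 : 0 ≤ ∫ t in x..y, ((y - x) * g t - I) ^ 2 :=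
    intervalIntegral.integral_nonneg hxy (fun t _ => sq_nonneg _)
  have i1 : IntervalIntegrable (fun t => g t ^ 2) volume x y := (hg.pow 2).intervalIntegrable _ _
  have i2 : IntervalIntegrable g volume x y := hg.intervalIntegrable _ _
  have h1 : ∫ t in x..y, ((y - x) * g t - I) ^ 2 =
      (y - x) ^ 2 * (∫ t in x..y, (g t) ^ 2) - 2 * (y - x) * I * I + (y - x) * I ^ 2 := by
    have e1 : (fun t => ((y - x) * g t - I) ^ 2) =
        fun t => ((y - x) ^ 2 * (g t) ^ 2 - 2 * (y - x) * I * g t) + I ^ 2 := by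
      funext t; ring
    rw [e1, intervalIntegral.integral_add ((i1.const_mul _).sub (i2.const_mul _))
      intervalIntegrable_const, intervalIntegral.integral_sub (i1.const_mul _) (i2.const_mul _),
      intervalIntegral.integral_const_mul, intervalIntegral.integral_const_mul,
      intervalIntegral.integral_const, ← hI, smul_eq_mul]
  rw [h1] at h0
  rcases hxy.eq_or_lt with rfl | hlt
  · have : I = 0 := by rw [hI, intervalIntegral.integral_same]
    rw [this]; simp
  · have h2 : 0 < y - x := by linarith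
    have h3 : 0 ≤ (y - x) * ((y - x) * (∫ t in x..y, (g t) ^ 2) - I ^ 2) := by
      refine h0.trans (le_of_eq ?_)
      ring
    have h4 := nonneg_of_mul_nonneg_right h3 h2
    linarith

/-- difference of two values on an interval of length `l` -/
theorem EB_diff {F a : ℝ → ℝ} (ha : Continuous a) (hF : ∀ t, HasDerivAt F (a t) t) {p l : ℝ}
    {s t : ℝ} (hs : s ∈ Set.Icc p (p + l)) (ht : t ∈ Set.Icc p (p + l)) :
    (F t - F s) ^ 2 ≤ l * ∫ r in p..(p + l), (a r) ^ 2 := by
  wlog hst : s ≤ t generalizing s t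
  · have h1 := this ht hs (le_of_not_ge hst)
    have e1 : (F t - F s) ^ 2 = (F s - F t) ^ 2 := by ring
    rw [e1]; exact h1
  have h1 : ∫ r in s..t, a r = F t - F s :=
    intervalIntegral.integral_eq_sub_of_hasDerivAt (fun r _ => hF r) (ha.intervalIntegrable _ _)
  have h2 := EB_cs ha hst
  rw [h1] at h2
  have hn : 0 ≤ ∫ r in s..t, (a r) ^ 2 := intervalIntegral.integral_nonneg hst (fun r _ => sq_nonneg _)
  have h3 : ∫ r in s..t, (a r) ^ 2 ≤ ∫ r in p..(p + l), (a r) ^ 2 := by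
    refine intervalIntegral.integral_mono_interval hs.1 hst ht.2 ?_ ((ha.pow 2).intervalIntegrable _ _)
    exact Filter.Eventually.of_forall fun r => sq_nonneg _
  have h4 : t - s ≤ l := by linarith [hs.1, ht.2]
  have h5 : 0 ≤ l := by linarith [hs.1, ht.2]
  calc (F t - F s) ^ 2 ≤ (t - s) * ∫ r in s..t, (a r) ^ 2 := h2
    _ ≤ l * ∫ r in s..t, (a r) ^ 2 := mul_le_mul_of_nonneg_right h4 hn
    _ ≤ l * ∫ r in p..(p + l), (a r) ^ 2 := mul_le_mul_of_nonneg_left h3 h5

theorem EB_cont {G : ℝ → ℝ → ℝ} (hG : Continuous (Function.uncurry G)) (q q' : ℝ) :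
    Continuous (fun u => ∫ v in q..q', G u v) :=
  intervalIntegral.continuous_parametric_intervalIntegral_of_continuous' hG q q'

/-- the inequality for iterated integrals -/
theorem EB_main (F a b : ℝ → ℝ → ℝ) (hF : Continuous (Function.uncurry F))
    (ha : Continuous (Function.uncurry a)) (hb : Continuous (Function.uncurry b))
    (h1 : ∀ u v, HasDerivAt (fun u => F u v) (a u v) u)
    (h2 : ∀ u v, HasDerivAt (fun v => F u v) (b u v) v)
    (p q l α β : ℝ) (hl : 0 < l) (hα : p ≤ α) (hβ : β ≤ p + l) (hαβ : l / 20 ≤ β - α)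
    (hz : ∀ u, α ≤ u → u ≤ β → ∃ v, q ≤ v ∧ v ≤ q + l ∧ F u v = 0) :
    ∫ u in p..(p + l), ∫ v in q..(q + l), (F u v) ^ 2 ≤
      200 * l ^ 2 * ∫ u in p..(p + l), ∫ v in q..(q + l), ((a u v) ^ 2 + (b u v) ^ 2) := by
  have hav : ∀ u, Continuous (a u) := fun u => ha.comp (Continuous.prodMk_right u)
  have hau : ∀ v, Continuous (fun u => a u v) := fun v => ha.comp (Continuous.prodMk_left v)
  have hbv : ∀ u, Continuous (b u) := fun u => hb.comp (Continuous.prodMk_right u)
  have hFv : ∀ u, Continuous (F u) := fun u => hF.comp (Continuous.prodMk_right u)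
  have hql : q ≤ q + l := by linarith
  have hpl : p ≤ p + l := by linarith
  have cA : Continuous (Function.uncurry fun u v => (a u v) ^ 2) := ha.pow 2
  have cB : Continuous (Function.uncurry fun u v => (b u v) ^ 2) := hb.pow 2
  have cF : Continuous (Function.uncurry fun u v => (F u v) ^ 2) := hF.pow 2
  have cA' : Continuous (Function.uncurry fun v u => (a u v) ^ 2) := (ha.comp continuous_swap).pow 2
  set A := ∫ v in q..(q + l), ∫ u in p..(p + l), (a u v) ^ 2 with hA
  set Bf : ℝ → ℝ := fun u => ∫ v in q..(q + l), (b u v) ^ 2 with hBf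
  set B := ∫ u in p..(p + l), Bf u with hB
  have hBc : Continuous Bf := EB_cont cB _ _
  have hBn : ∀ u, 0 ≤ Bf u := fun u => intervalIntegral.integral_nonneg hql (fun _ _ => sq_nonneg _)
  have hAn : 0 ≤ A := intervalIntegral.integral_nonneg hql
    (fun _ _ => intervalIntegral.integral_nonneg hpl (fun _ _ => sq_nonneg _))
  have hB0 : 0 ≤ B := intervalIntegral.integral_nonneg hpl (fun u _ => hBn u)
  -- first bound
  have k1 : ∀ u' , α ≤ u' → u' ≤ β → ∀ v ∈ Set.Icc q (q + l), (F u' v) ^ 2 ≤ l * Bf u' := by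
    intro u' h3 h4 v hv
    obtain ⟨v0, h5, h6, h7⟩ := hz u' h3 h4
    have h8 := EB_diff (F := F u') (a := b u') (hbv u') (fun t => h2 u' t) (p := q) (l := l)
      (s := v0) (t := v) ⟨h5, h6⟩ hv
    rw [h7, sub_zero] at h8
    exact h8
  -- second bound
  have k2 : ∀ u ∈ Set.Icc p (p + l), ∀ u' , α ≤ u' → u' ≤ β →
      ∫ v in q..(q + l), (F u v) ^ 2 ≤ 2 * l ^ 2 * Bf u' + 2 * l * A := by
    intro u hu u' h3 h4
    have hu' : u' ∈ Set.Icc p (p + l) := ⟨by linarith, by linarith⟩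
    have h5 : ∀ v ∈ Set.Icc q (q + l), (F u v) ^ 2 ≤
        2 * (l * Bf u') + 2 * (l * ∫ r in p..(p + l), (a r v) ^ 2) := by
      intro v hv
      have h6 := k1 u' h3 h4 v hv
      have h7 := EB_diff (F := fun r => F r v) (a := fun r => a r v) (hau v) (fun t => h1 t v)
        (p := p) (l := l) (s := u') (t := u) hu' hu
      nlinarith [sq_nonneg (F u v - 2 * F u' v)]
    have cA2 : Continuous (fun v => ∫ r in p..(p + l), (a r v) ^ 2) := EB_cont cA' _ _
    have i1 : IntervalIntegrable (fun v => 2 * (l * ∫ r in p..(p + l), (a r v) ^ 2)) volume q (q + l) :=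
      ((cA2.intervalIntegrable q (q + l)).const_mul l).const_mul 2
    have i2 : IntervalIntegrable (fun v => 2 * (l * Bf u') + 2 * (l * ∫ r in p..(p + l), (a r v) ^ 2))
        volume q (q + l) := intervalIntegrable_const.add i1
    have h6 := intervalIntegral.integral_mono_on hql (((hFv u).pow 2).intervalIntegrable _ _) i2 h5
    refine h6.trans (le_of_eq ?_)
    rw [intervalIntegral.integral_add intervalIntegrable_const i1,
      intervalIntegral.integral_const, intervalIntegral.integral_const_mul,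
      intervalIntegral.integral_const_mul, smul_eq_mul, ← hA]
    ring
  -- average over `u'`
  have hαβ' : α ≤ β := by nlinarith
  have k3 : ∀ u ∈ Set.Icc p (p + l), ∫ v in q..(q + l), (F u v) ^ 2 ≤ 40 * l * B + 2 * l * A := by
    intro u hu
    set c := ∫ v in q..(q + l), (F u v) ^ 2 with hc
    have i1 : IntervalIntegrable (fun u' => 2 * l ^ 2 * Bf u') volume α β :=
      (hBc.intervalIntegrable α β).const_mul _
    have h3 : ∫ u' in α..β, c ≤ ∫ u' in α..β, (2 * l ^ 2 * Bf u' + 2 * l * A) :=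
      intervalIntegral.integral_mono_on hαβ' intervalIntegrable_const
        (i1.add intervalIntegrable_const) (fun u' hu' => k2 u hu u' hu'.1 hu'.2)
    rw [intervalIntegral.integral_const, intervalIntegral.integral_add i1 intervalIntegrable_const,
      intervalIntegral.integral_const_mul, intervalIntegral.integral_const, smul_eq_mul,
      smul_eq_mul] at h3
    have h4 : ∫ u' in α..β, Bf u' ≤ B := by
      refine intervalIntegral.integral_mono_interval hα hαβ' hβ ?_ (hBc.intervalIntegrable _ _)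
      exact Filter.Eventually.of_forall fun r => hBn r
    have h5 : 0 < β - α := by nlinarith
    have h6 : (β - α) * c ≤ 2 * l ^ 2 * B + (β - α) * (2 * l * A) := by nlinarith [sq_nonneg l]
    have h7 : 2 * l ^ 2 * B ≤ (β - α) * (40 * l * B) := by
      have : 0 ≤ l * B := by positivity
      nlinarith
    have h8 : (β - α) * c ≤ (β - α) * (40 * l * B + 2 * l * A) := by nlinarith
    exact le_of_mul_le_mul_left h8 h5
  -- integrate over `u`
  have k4 : ∫ u in p..(p + l), ∫ v in q..(q + l), (F u v) ^ 2 ≤ l * (40 * l * B + 2 * l * A) := by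
    have h3 := intervalIntegral.integral_mono_on hpl ((EB_cont cF q (q + l)).intervalIntegrable
      (μ := volume) p (p + l)) (intervalIntegrable_const (c := 40 * l * B + 2 * l * A)) k3
    refine h3.trans (le_of_eq ?_)
    rw [intervalIntegral.integral_const, smul_eq_mul]
    ring
  -- the right side
  have k5 : ∫ u in p..(p + l), ∫ v in q..(q + l), ((a u v) ^ 2 + (b u v) ^ 2) = A + B := by
    have h3 : ∀ u, ∫ v in q..(q + l), ((a u v) ^ 2 + (b u v) ^ 2) =
        (∫ v in q..(q + l), (a u v) ^ 2) + Bf u := fun u =>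
      intervalIntegral.integral_add (((hav u).pow 2).intervalIntegrable _ _)
        (((hbv u).pow 2).intervalIntegrable _ _)
    simp only [h3]
    rw [intervalIntegral.integral_add ((EB_cont cA q (q + l)).intervalIntegrable _ _)
      (hBc.intervalIntegrable _ _), ← hB]
    congr 1
    rw [hA]
    exact intervalIntegral_intervalIntegral_swap
      ((cA.continuousOn.integrableOn_compact (isCompact_uIcc.prod isCompact_uIcc)).mono_set
        (Set.prod_mono Set.uIoc_subset_uIcc Set.uIoc_subset_uIcc))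
  rw [k5]
  refine k4.trans ?_
  nlinarith [mul_nonneg (sq_nonneg l) hAn, mul_nonneg (sq_nonneg l) hB0]

/-- integrals over a rectangle of the complex plane -/
theorem EB_conv (g : ℂ → ℝ) (hg : Continuous g) (p q l : ℝ) (hl : 0 < l) :
    ∫ z in {z : ℂ | (p ≤ z.re ∧ z.re ≤ p + l) ∧ (q ≤ z.im ∧ z.im ≤ q + l)}, g z =
      ∫ u in p..(p + l), ∫ v in q..(q + l), g ⟨u, v⟩ := by
  have hm := Complex.volume_preserving_equiv_real_prod.symm
  have hs : Complex.measurableEquivRealProd.symm ⁻¹'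
      {z : ℂ | (p ≤ z.re ∧ z.re ≤ p + l) ∧ (q ≤ z.im ∧ z.im ≤ q + l)} =
      Set.Icc p (p + l) ×ˢ Set.Icc q (q + l) := by
    ext x
    rw [Set.mem_prod]
    exact Iff.rfl
  have h1 := hm.setIntegral_preimage_emb (Complex.measurableEquivRealProd.symm).measurableEmbedding g
    {z : ℂ | (p ≤ z.re ∧ z.re ≤ p + l) ∧ (q ≤ z.im ∧ z.im ≤ q + l)}
  rw [← h1, hs]
  have hpl : p ≤ p + l := by linarith
  have hql : q ≤ q + l := by linarith
  have hgc : Continuous (fun x : ℝ × ℝ => g (Complex.measurableEquivRealProd.symm x)) := by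
    have : (fun x : ℝ × ℝ => g (Complex.measurableEquivRealProd.symm x)) =
        fun x => g (Complex.equivRealProdCLM.symm x) := rfl
    rw [this]
    exact hg.comp Complex.equivRealProdCLM.symm.continuous
  rw [Measure.volume_eq_prod, setIntegral_prod _ (hgc.continuousOn.integrableOn_compact
    (isCompact_Icc.prod isCompact_Icc)), integral_Icc_eq_integral_Ioc,
    intervalIntegral.integral_of_le hpl]
  refine setIntegral_congr_fun measurableSet_Ioc fun u _ => ?_
  show ∫ v in Set.Icc q (q + l), _ = _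
  rw [integral_Icc_eq_integral_Ioc, intervalIntegral.integral_of_le hql]
  rfl

theorem EB_re {f : ℂ → ℝ} (hf : Differentiable ℝ f) (u v : ℝ) :
    HasDerivAt (fun u : ℝ => f ⟨u, v⟩) (fderiv ℝ f ⟨u, v⟩ 1) u := by
  have h1 : HasDerivAt (fun u : ℝ => (⟨u, v⟩ : ℂ)) 1 u := by
    have h2 : (fun u : ℝ => (⟨u, v⟩ : ℂ)) = fun u : ℝ => (u : ℂ) + v * Complex.I := by
      funext u; exact (Complex.mk_eq_add_mul_I u v)
    rw [h2]
    exact (Complex.ofRealCLM.hasDerivAt (x := u)).add_const _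
  exact (hf _).hasFDerivAt.comp_hasDerivAt u h1

theorem EB_im {f : ℂ → ℝ} (hf : Differentiable ℝ f) (u v : ℝ) :
    HasDerivAt (fun v : ℝ => f ⟨u, v⟩) (fderiv ℝ f ⟨u, v⟩ Complex.I) v := by
  have h1 : HasDerivAt (fun v : ℝ => (⟨u, v⟩ : ℂ)) Complex.I v := by
    have h2 : (fun v : ℝ => (⟨u, v⟩ : ℂ)) = fun v : ℝ => (u : ℂ) + v * Complex.I := by
      funext v; exact (Complex.mk_eq_add_mul_I u v)
    rw [h2]
    have h3 := ((Complex.ofRealCLM.hasDerivAt (x := v)).mul_const Complex.I).const_add (u : ℂ)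
    simpa using h3
  exact (hf _).hasFDerivAt.comp_hasDerivAt v h1

theorem EB_mk : Continuous (fun x : ℝ × ℝ => (⟨x.1, x.2⟩ : ℂ)) :=
  Complex.equivRealProdCLM.symm.continuous

theorem poincare_h (f : ℂ → ℝ) (hf : ContDiff ℝ 1 f) (p q l α β : ℝ) (hl : 0 < l)
    (hα : p ≤ α) (hβ : β ≤ p + l) (hαβ : l / 20 ≤ β - α)
    (hz : ∀ u, α ≤ u → u ≤ β → ∃ v, q ≤ v ∧ v ≤ q + l ∧ f ⟨u, v⟩ = 0) :
    ∫ z in {z : ℂ | (p ≤ z.re ∧ z.re ≤ p + l) ∧ (q ≤ z.im ∧ z.im ≤ q + l)}, (f z) ^ 2 ≤
      200 * l ^ 2 * ∫ z in {z : ℂ | (p ≤ z.re ∧ z.re ≤ p + l) ∧ (q ≤ z.im ∧ z.im ≤ q + l)},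
        ((fderiv ℝ f z 1) ^ 2 + (fderiv ℝ f z Complex.I) ^ 2) := by
  have hd : Differentiable ℝ f := hf.differentiable one_ne_zero
  have hc : Continuous (fderiv ℝ f) := hf.continuous_fderiv one_ne_zero
  have c1 : Continuous (fun z => fderiv ℝ f z 1) := hc.clm_apply continuous_const
  have c2 : Continuous (fun z => fderiv ℝ f z Complex.I) := hc.clm_apply continuous_const
  rw [EB_conv (fun z => (f z) ^ 2) (hf.continuous.pow 2) p q l hl,
    EB_conv (fun z => (fderiv ℝ f z 1) ^ 2 + (fderiv ℝ f z Complex.I) ^ 2)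
      ((c1.pow 2).add (c2.pow 2)) p q l hl]
  exact EB_main (fun u v => f ⟨u, v⟩) (fun u v => fderiv ℝ f ⟨u, v⟩ 1)
    (fun u v => fderiv ℝ f ⟨u, v⟩ Complex.I) (hf.continuous.comp EB_mk) (c1.comp EB_mk)
    (c2.comp EB_mk) (EB_re hd) (EB_im hd) p q l α β hl hα hβ hαβ hz

theorem EB_swap {G : ℝ → ℝ → ℝ} (hG : Continuous (Function.uncurry G)) (p p' q q' : ℝ) :
    ∫ u in p..p', ∫ v in q..q', G u v = ∫ v in q..q', ∫ u in p..p', G u v :=
  intervalIntegral_intervalIntegral_swap
    ((hG.continuousOn.integrableOn_compact (isCompact_uIcc.prod isCompact_uIcc)).mono_set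
      (Set.prod_mono Set.uIoc_subset_uIcc Set.uIoc_subset_uIcc))

theorem poincare_v (f : ℂ → ℝ) (hf : ContDiff ℝ 1 f) (p q l α β : ℝ) (hl : 0 < l)
    (hα : q ≤ α) (hβ : β ≤ q + l) (hαβ : l / 20 ≤ β - α)
    (hz : ∀ v, α ≤ v → v ≤ β → ∃ u, p ≤ u ∧ u ≤ p + l ∧ f ⟨u, v⟩ = 0) :
    ∫ z in {z : ℂ | (p ≤ z.re ∧ z.re ≤ p + l) ∧ (q ≤ z.im ∧ z.im ≤ q + l)}, (f z) ^ 2 ≤
      200 * l ^ 2 * ∫ z in {z : ℂ | (p ≤ z.re ∧ z.re ≤ p + l) ∧ (q ≤ z.im ∧ z.im ≤ q + l)},
        ((fderiv ℝ f z 1) ^ 2 + (fderiv ℝ f z Complex.I) ^ 2) := by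
  have hd : Differentiable ℝ f := hf.differentiable one_ne_zero
  have hc : Continuous (fderiv ℝ f) := hf.continuous_fderiv one_ne_zero
  have c1 : Continuous (fun z => fderiv ℝ f z 1) := hc.clm_apply continuous_const
  have c2 : Continuous (fun z => fderiv ℝ f z Complex.I) := hc.clm_apply continuous_const
  have hsw : Continuous (fun x : ℝ × ℝ => (⟨x.2, x.1⟩ : ℂ)) := EB_mk.comp continuous_swap
  have g1 : Continuous (Function.uncurry fun u v : ℝ => f ⟨u, v⟩ ^ 2) :=
    (hf.continuous.comp EB_mk).pow 2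
  have g2 : Continuous (Function.uncurry fun u v : ℝ =>
      (fderiv ℝ f ⟨u, v⟩ 1) ^ 2 + (fderiv ℝ f ⟨u, v⟩ Complex.I) ^ 2) :=
    ((c1.comp EB_mk).pow 2).add ((c2.comp EB_mk).pow 2)
  rw [EB_conv (fun z => (f z) ^ 2) (hf.continuous.pow 2) p q l hl,
    EB_conv (fun z => (fderiv ℝ f z 1) ^ 2 + (fderiv ℝ f z Complex.I) ^ 2)
      ((c1.pow 2).add (c2.pow 2)) p q l hl,
    EB_swap g1, EB_swap g2]
  have h1 := EB_main (fun u v => f ⟨v, u⟩) (fun u v => fderiv ℝ f ⟨v, u⟩ Complex.I)
    (fun u v => fderiv ℝ f ⟨v, u⟩ 1) (hf.continuous.comp hsw) (c2.comp hsw)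
    (c1.comp hsw) (fun u v => EB_im hd v u) (fun u v => EB_re hd v u) q p l α β hl hα hβ hαβ hz
  refine h1.trans (le_of_eq ?_)
  congr 1
  refine intervalIntegral.integral_congr fun u _ => ?_
  refine intervalIntegral.integral_congr fun v _ => ?_
  exact add_comm _ _

end Pool.Agent.helper32.EB
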