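import Pool.Agent.helper43.BT.HA
import Pool.Agent.helper97.BT.VB
import Pool.Agent.helper97.BT.GD

/-! # Project EB (MP_b57423_pr), module HB: the walk covers the torus -/

open MeasureTheory ProbabilityTheory Filter Topology
open scoped ENNReal NNReal

namespace Pool.Agent.helper32.EB

/-- grid points -/
theorem HB_grid (m : ℕ) (hm : 0 < m) (x : ℂ) : ∃ (a b : Fin m) (p q : ℤ) (d : ℂ),
    ‖d‖ ≤ 1 / m ∧ x = (⟨(a : ℕ) / m, (b : ℕ) / m⟩ : ℂ) + ⟨p, q⟩ + d := by
  have hm' : (0 : ℝ) < m := by exact_mod_cast hm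
  have hmz : (0 : ℤ) < m := by exact_mod_cast hm
  have key : ∀ t : ℝ, ∃ (a : Fin m) (p : ℤ), |t - ((a : ℕ) / m + p)| ≤ 1 / (2 * m) := by
    intro t
    set j : ℤ := round (m * t) with hj
    have h1 : |m * t - j| ≤ 1 / 2 := abs_sub_round _
    have ha0 : 0 ≤ j % m := Int.emod_nonneg _ hmz.ne'
    have ha1 : j % m < m := Int.emod_lt_of_pos _ hmz
    refine ⟨⟨(j % m).toNat, by omega⟩, j / m, ?_⟩
    have h2 : (((j % m).toNat : ℕ) : ℝ) = ((j % m : ℤ) : ℝ) := by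
      have : (((j % m).toNat : ℕ) : ℤ) = j % m := Int.toNat_of_nonneg ha0
      exact_mod_cast congrArg (fun z : ℤ => (z : ℝ)) this
    have h3 : ((j % m : ℤ) : ℝ) = (j : ℝ) - m * ((j / m : ℤ) : ℝ) := by
      have := Int.emod_add_mul_ediv j m
      have h4 : ((j % m : ℤ) : ℝ) + m * ((j / m : ℤ) : ℝ) = (j : ℝ) := by exact_mod_cast this
      linarith
    show |t - ((((j % m).toNat : ℕ) : ℝ) / m + ((j / m : ℤ) : ℝ))| ≤ 1 / (2 * m)
    rw [h2, h3]
    have h5 : t - (((j : ℝ) - m * ((j / m : ℤ) : ℝ)) / m + ((j / m : ℤ) : ℝ)) = (m * t - j) / m := by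
      field_simp
      ring
    rw [h5, abs_div, abs_of_pos hm', div_le_div_iff₀ hm' (by positivity)]
    nlinarith
  obtain ⟨a, p, h1⟩ := key x.re
  obtain ⟨b, q, h2⟩ := key x.im
  refine ⟨a, b, p, q, x - ((⟨(a : ℕ) / m, (b : ℕ) / m⟩ : ℂ) + ⟨p, q⟩), ?_, by ring⟩
  refine (Complex.norm_le_abs_re_add_abs_im _).trans ?_
  have e1 : (x - ((⟨(a : ℕ) / m, (b : ℕ) / m⟩ : ℂ) + ⟨p, q⟩)).re = x.re - ((a : ℕ) / m + p) := by simp
  have e2 : (x - ((⟨(a : ℕ) / m, (b : ℕ) / m⟩ : ℂ) + ⟨p, q⟩)).im = x.im - ((b : ℕ) / m + q) := by simp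
  rw [e1, e2]
  have e3 : (1 : ℝ) / m = 1 / (2 * m) + 1 / (2 * m) := by field_simp; ring
  rw [e3]
  exact add_le_add h1 h2

theorem HB_ev (θ : ℝ) (hθ : 1 < θ) : ∀ᶠ L : ℝ in atTop,
    4 * L * Real.exp (2 * Real.pi) * Real.exp (-(2 * (θ - 1) * L)) ≤ 1 / 4 := by
  have h1 : Tendsto (fun x : ℝ => x ^ 1 * Real.exp (-x)) atTop (𝓝 0) :=
    Real.tendsto_pow_mul_exp_neg_atTop_nhds_zero 1
  have hc : 0 < 2 * (θ - 1) := by linarith
  have h2 : Tendsto (fun L : ℝ => 2 * (θ - 1) * L) atTop atTop := tendsto_id.const_mul_atTop hc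
  have h3 := (h1.comp h2).const_mul (4 * Real.exp (2 * Real.pi) / (2 * (θ - 1)))
  rw [mul_zero] at h3
  have h4 := h3.eventually (ge_mem_nhds (show (0 : ℝ) < 1 / 4 by norm_num))
  filter_upwards [h4] with L hL
  refine le_trans (le_of_eq ?_) hL
  have hne : θ - 1 ≠ 0 := by linarith
  simp only [Function.comp, pow_one]
  rw [div_mul_eq_mul_div, eq_div_iff (mul_ne_zero two_ne_zero hne)]
  ring

theorem walk_cover_big {Ω : Type*} [MeasurableSpace Ω] {P : Measure Ω} [IsProbabilityMeasure P]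
    (γ : ℝ) (hγ : 1 < γ) : ∀ᶠ L : ℝ in atTop, ∀ Y : ℕ → Ω → ℂ,
      IID P (stepLaw (pδ L) (ph L)) Y → ∀ N : ℕ,
      γ * L ^ 2 / Real.pi ≤ (N : ℝ) * Real.exp (-3 * L) + 1 →
      ∃ F : Set Ω, MeasurableSet F ∧ ENNReal.ofReal (3 / 4) ≤ P F ∧
        ∀ ω ∈ F, ∀ x : ℂ, ∃ k ≤ N, ‖disp (walk 0 (fun k => Y k ω) k - x)‖ ≤
          2 * Real.exp (-L) := by
  obtain ⟨κ, hκ0, hκ1, hκ2⟩ : ∃ κ : ℝ, 0 < κ ∧ κ ≤ 1 / 4 ∧ 1 < γ * (1 - 3 * κ) := by
    refine ⟨min (1 / 4) ((γ - 1) / (6 * γ)), lt_min (by norm_num) (by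
      apply div_pos <;> linarith), min_le_left _ _, ?_⟩
    have h1 : min (1 / 4) ((γ - 1) / (6 * γ)) ≤ (γ - 1) / (6 * γ) := min_le_right _ _
    have h2 : (γ - 1) / (6 * γ) * (3 * γ) = (γ - 1) / 2 := by field_simp; ring
    have h3 : min (1 / 4) ((γ - 1) / (6 * γ)) * (3 * γ) ≤ (γ - 1) / (6 * γ) * (3 * γ) :=
      mul_le_mul_of_nonneg_right h1 (by linarith)
    nlinarith
  obtain ⟨C, g, -, hg⟩ := greenFn_exists κ hκ0 (by linarith)
  filter_upwards [survive (P := P) hκ0 hκ1 hg, HB_ev _ hκ2, eventually_ge_atTop 1] with L hsur hev hL1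
  intro Y hY N hN
  set m : ℕ := ⌈Real.exp L⌉₊ with hm
  have hexp : 0 < Real.exp L := Real.exp_pos L
  have hm0 : 0 < m := Nat.ceil_pos.2 hexp
  have hm0' : (0 : ℝ) < m := by exact_mod_cast hm0
  have hm1 : Real.exp L ≤ m := Nat.le_ceil _
  have hm2 : (m : ℝ) ≤ 2 * Real.exp L := by
    have h1 := Nat.ceil_lt_add_one hexp.le
    have h2 : (1 : ℝ) ≤ Real.exp L := Real.one_le_exp (by linarith)
    linarith
  have hm3 : 1 / (m : ℝ) ≤ Real.exp (-L) := by
    rw [Real.exp_neg, ← one_div]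
    exact one_div_le_one_div_of_le hexp hm1
  set gr : Fin m × Fin m → ℂ := fun i => ⟨(i.1 : ℕ) / m, (i.2 : ℕ) / m⟩ with hgr
  set E : Fin m × Fin m → Set Ω := fun i =>
    {ω | ∀ k ≤ N, Real.exp (-L) < ‖disp (walk 0 (fun k => Y k ω) k - gr i)‖} with hE
  have hwm : ∀ k, Measurable (fun ω => walk 0 (fun k => Y k ω) k) := by
    intro k
    unfold walk
    exact measurable_const.add (Finset.measurable_fun_sum _ fun j _ => hY.meas j)
  have hEm : ∀ i, MeasurableSet (E i) := by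
    intro i
    have h1 : E i = ⋂ k ∈ Finset.range (N + 1),
        {ω | Real.exp (-L) < ‖disp (walk 0 (fun k => Y k ω) k - gr i)‖} := by
      ext ω
      simp only [hE, Set.mem_setOf_eq, Set.mem_iInter, Finset.mem_range, Nat.lt_succ_iff]
    rw [h1]
    refine Finset.measurableSet_biInter _ fun k _ => ?_
    exact measurableSet_lt measurable_const (disp_meas.comp ((hwm k).sub_const _)).norm
  set F : Set Ω := (⋃ i, E i)ᶜ with hF
  have hFm : MeasurableSet F := (MeasurableSet.iUnion hEm).compl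
  refine ⟨F, hFm, ?_, ?_⟩
  · -- probability
    have h1 : P (⋃ i, E i) ≤ ENNReal.ofReal (1 / 4) := by
      refine (measure_iUnion_fintype_le P E).trans ?_
      have h2 : ∀ i, P (E i) ≤ ENNReal.ofReal
          (L * Real.exp (-(1 - 3 * κ) * (2 * Real.pi) * N * Real.exp (-3 * L) / L)) :=
        fun i => hsur Y hY 0 (gr i) N
      refine (Finset.sum_le_sum fun i _ => h2 i).trans ?_
      rw [Finset.sum_const, Finset.card_univ, Fintype.card_prod, Fintype.card_fin, nsmul_eq_mul,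
        ← ENNReal.ofReal_natCast, ← ENNReal.ofReal_mul (by positivity)]
      apply ENNReal.ofReal_le_ofReal
      refine le_trans ?_ hev
      have hπ := Real.pi_pos
      have e1 : -(1 - 3 * κ) * (2 * Real.pi) * N * Real.exp (-3 * L) / L ≤
          -(2 * (γ * (1 - 3 * κ)) * L) + 2 * Real.pi := by
        rw [div_le_iff₀ (by linarith)]
        have h3 : γ * L ^ 2 - Real.pi ≤ Real.pi * (N * Real.exp (-3 * L)) := by
          rw [div_le_iff₀ hπ] at hN
          linarith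
        have h4 : 0 < 1 - 3 * κ := by linarith
        have h5 : (1 - 3 * κ) * 2 * (γ * L ^ 2 - Real.pi) ≤
            (1 - 3 * κ) * 2 * (Real.pi * (N * Real.exp (-3 * L))) :=
          mul_le_mul_of_nonneg_left h3 (by linarith)
        nlinarith
      have e2 : Real.exp (-(1 - 3 * κ) * (2 * Real.pi) * N * Real.exp (-3 * L) / L) ≤
          Real.exp (-(2 * (γ * (1 - 3 * κ)) * L) + 2 * Real.pi) := Real.exp_le_exp.2 e1
      have e3 : ((m * m : ℕ) : ℝ) ≤ 4 * Real.exp (2 * L) := by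
        have : Real.exp (2 * L) = Real.exp L * Real.exp L := by rw [← Real.exp_add]; ring_nf
        rw [this]
        push_cast
        nlinarith
      calc ((m * m : ℕ) : ℝ) * (L * Real.exp (-(1 - 3 * κ) * (2 * Real.pi) * N *
            Real.exp (-3 * L) / L))
          ≤ 4 * Real.exp (2 * L) * (L * Real.exp (-(2 * (γ * (1 - 3 * κ)) * L) + 2 * Real.pi)) :=
            mul_le_mul e3 (mul_le_mul_of_nonneg_left e2 (by linarith)) (by positivity) (by positivity)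
        _ = 4 * L * Real.exp (2 * Real.pi) * Real.exp (-(2 * (γ * (1 - 3 * κ) - 1) * L)) := by
            have : Real.exp (-(2 * (γ * (1 - 3 * κ) - 1) * L)) =
                Real.exp (2 * L) * Real.exp (-(2 * (γ * (1 - 3 * κ)) * L)) := by
              rw [← Real.exp_add]; ring_nf
            rw [this, Real.exp_add]
            ring
    have h2 : P F = 1 - P (⋃ i, E i) := prob_compl_eq_one_sub (MeasurableSet.iUnion hEm)
    rw [h2]
    have h3 : ENNReal.ofReal (3 / 4) = 1 - ENNReal.ofReal (1 / 4) := by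
      rw [← ENNReal.ofReal_one, ← ENNReal.ofReal_sub _ (by norm_num)]
      norm_num
    rw [h3]
    exact tsub_le_tsub_left h1 1
  · intro ω hω x
    obtain ⟨a, b, p, q, d, hd, hx⟩ := HB_grid m hm0 x
    have h1 : ω ∉ E (a, b) := fun h => hω (Set.mem_iUnion.2 ⟨(a, b), h⟩)
    simp only [hE, Set.mem_setOf_eq, not_forall, not_lt, exists_prop] at h1
    obtain ⟨k, hk, hk2⟩ := h1
    refine ⟨k, hk, ?_⟩
    set w := walk 0 (fun k => Y k ω) k with hw
    have e1 : w - x = ((w - gr (a, b)) + ⟨((-p : ℤ) : ℝ), ((-q : ℤ) : ℝ)⟩) + (-d) := by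
      rw [hx]
      have : (⟨((-p : ℤ) : ℝ), ((-q : ℤ) : ℝ)⟩ : ℂ) = -⟨p, q⟩ := by
        apply Complex.ext <;> simp
      rw [this, hgr]
      ring
    rw [e1]
    refine (disp_norm_add _ _).trans ?_
    rw [disp_lattice, norm_neg]
    linarith

end Pool.Agent.helper32.EB
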